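import Pool.Agent.Run7.h350.FK.Iface

/-!
# Piece COV of project FK (helper350)

By helper610.
-/

set_option autoImplicit false

namespace Pool.Agent.Run7.h610.FK

open MeasureTheory Set Topology Pool.Agent.Run7.h350.FK
open scoped ENNReal NNReal

theorem measurableSet_shell (n K : ℕ) : MeasurableSet (shell n K) := by
  have h : Measurable fun z : CE n => ‖z‖ ^ 2 := (continuous_norm.pow 2).measurable
  exact (measurableSet_le measurable_const h).inter (measurableSet_lt h measurable_const)

theorem measurableSet_thick (n K : ℕ) : MeasurableSet (thick n K) := by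
  have h : Measurable fun z : CE n => ‖z‖ ^ 2 := (continuous_norm.pow 2).measurable
  exact (measurableSet_le measurable_const h).inter (measurableSet_le h measurable_const)

theorem iUnion_shell (n : ℕ) : (⋃ K, shell n K) = univ := by
  rw [eq_univ_iff_forall]
  intro z
  rw [mem_iUnion]
  exact ⟨⌊‖z‖ ^ 2⌋₊, Nat.floor_le (by positivity), Nat.lt_floor_add_one _⟩

theorem measurable_weight (n : ℕ) (s β : ℝ) :
    Measurable fun z : CE n => ENNReal.ofReal ((1 + ‖z‖ ^ 2) ^ s * Real.exp (-β * ‖z‖ ^ 2)) := by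
  have h : Measurable fun z : CE n => ‖z‖ ^ 2 := (continuous_norm.pow 2).measurable
  exact (((measurable_const.add h).pow_const s).mul
    (Real.measurable_exp.comp (measurable_const.mul h))).ennreal_ofReal

/-- **COV.** -/
theorem t_COV : S_COV := by
  intro n q β σ hq hβ hσ G hG
  constructor
  · intro hfin
    refine ne_top_of_le_ne_top hfin ?_
    calc ∫⁻ z, ENNReal.ofReal ((1 + ‖z‖ ^ 2) ^ (-σ) * Real.exp (-β * ‖z‖ ^ 2)) * G z
        = ∫⁻ z in ⋃ K, shell n K,
            ENNReal.ofReal ((1 + ‖z‖ ^ 2) ^ (-σ) * Real.exp (-β * ‖z‖ ^ 2)) * G z := by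
          rw [iUnion_shell, Measure.restrict_univ]
      _ ≤ ∑' K, ∫⁻ z in shell n K,
            ENNReal.ofReal ((1 + ‖z‖ ^ 2) ^ (-σ) * Real.exp (-β * ‖z‖ ^ 2)) * G z :=
          lintegral_iUnion_le _ _
      _ ≤ _ := by
          apply ENNReal.tsum_le_tsum
          intro K
          rw [← lintegral_const_mul _ hG]
          apply setLIntegral_mono (measurable_const.mul hG)
          intro z hz
          have h1 : (K : ℝ) ≤ ‖z‖ ^ 2 := hz.1
          have h2 : (1 + ‖z‖ ^ 2) ^ (-σ) ≤ (1 + (K : ℝ)) ^ (-σ) :=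
            Real.rpow_le_rpow_of_nonpos (by positivity) (by linarith) (by linarith)
          have h3 : Real.exp (-β * ‖z‖ ^ 2) ≤ Real.exp (-β * K) :=
            Real.exp_le_exp.2 (by nlinarith)
          have h4 : (1 + ‖z‖ ^ 2) ^ (-σ) * Real.exp (-β * ‖z‖ ^ 2) ≤
              (1 + (K : ℝ)) ^ (-σ) * Real.exp (-β * K) :=
            mul_le_mul h2 h3 (Real.exp_pos _).le (by positivity)
          exact mul_le_mul' (ENNReal.ofReal_le_ofReal h4) le_rfl
  · intro hfin
    set F : CE n → ℝ≥0∞ := fun z =>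
      ENNReal.ofReal ((1 + ‖z‖ ^ 2) ^ (-σ - q) * Real.exp (-β * ‖z‖ ^ 2)) * G z with hF
    have hFm : Measurable F := (measurable_weight n (-σ - q) β).mul hG
    set C : ℝ := (20 : ℝ) ^ (σ + q) * Real.exp (β * 19) with hC
    have hC0 : 0 ≤ C := by positivity
    -- the weights
    have hw : ∀ K : ℕ, ∀ z ∈ thick n K,
        ENNReal.ofReal ((1 + (K : ℝ)) ^ (-σ) * Real.exp (-β * K) * (1 + (K : ℝ)) ^ (-q)) * G z ≤
          ENNReal.ofReal C * F z := by
      intro K z hz
      have hz2 : ‖z‖ ^ 2 ≤ (K : ℝ) + 19 := hz.2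
      have hK0 : (0 : ℝ) ≤ K := Nat.cast_nonneg K
      rw [hF, ← mul_assoc, ← ENNReal.ofReal_mul hC0]
      have e1 : (1 + (K : ℝ)) ^ (-σ) * Real.exp (-β * K) * (1 + (K : ℝ)) ^ (-q) =
          (1 + (K : ℝ)) ^ (-σ - q) * Real.exp (-β * K) := by
        rw [show (-σ - q) = -σ + -q by ring, Real.rpow_add (by positivity)]
        ring
      have e2 : (1 + (K : ℝ)) ^ (-σ - q) ≤ (20 : ℝ) ^ (σ + q) * (1 + ‖z‖ ^ 2) ^ (-σ - q) := by
        have e3 : (20 : ℝ) ^ (σ + q) = (20⁻¹ : ℝ) ^ (-σ - q) := by
          rw [show (-σ - q) = -(σ + q) by ring, Real.rpow_neg (by norm_num),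
            Real.inv_rpow (by norm_num), inv_inv]
        rw [e3, ← Real.mul_rpow (by norm_num) (by positivity)]
        apply Real.rpow_le_rpow_of_nonpos (by positivity) _ (by linarith)
        rw [inv_mul_le_iff₀ (by norm_num)]
        linarith
      have e4 : Real.exp (-β * K) ≤ Real.exp (β * 19) * Real.exp (-β * ‖z‖ ^ 2) := by
        rw [← Real.exp_add]
        exact Real.exp_le_exp.2 (by nlinarith)
      have e5 : (1 + (K : ℝ)) ^ (-σ) * Real.exp (-β * K) * (1 + (K : ℝ)) ^ (-q) ≤
          C * ((1 + ‖z‖ ^ 2) ^ (-σ - q) * Real.exp (-β * ‖z‖ ^ 2)) := by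
        rw [e1, hC]
        calc (1 + (K : ℝ)) ^ (-σ - q) * Real.exp (-β * K)
            ≤ ((20 : ℝ) ^ (σ + q) * (1 + ‖z‖ ^ 2) ^ (-σ - q)) *
                (Real.exp (β * 19) * Real.exp (-β * ‖z‖ ^ 2)) :=
              mul_le_mul e2 e4 (Real.exp_pos _).le (by positivity)
          _ = _ := by ring
      gcongr
    -- the number of thick shells through a point
    have hcount : ∀ z : CE n, ∑' K : ℕ, (thick n K).indicator F z ≤ 26 * F z := by
      intro z
      set N : ℕ := ⌊‖z‖ ^ 2⌋₊ with hN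
      have hN1 : (N : ℝ) ≤ ‖z‖ ^ 2 := Nat.floor_le (by positivity)
      have hN2 : ‖z‖ ^ 2 < N + 1 := Nat.lt_floor_add_one _
      have hz : ∀ K ∉ Finset.Icc (N - 19) (N + 6), (thick n K).indicator F z = 0 := by
        intro K hK
        rw [indicator_of_notMem]
        intro hz
        apply hK
        have h1 : (K : ℝ) - 6 ≤ ‖z‖ ^ 2 := hz.1
        have h2 : ‖z‖ ^ 2 ≤ (K : ℝ) + 19 := hz.2
        have h3 : (K : ℝ) < (N + 7 : ℕ) := by push_cast; linarith
        have h4 : (N : ℝ) ≤ (K + 19 : ℕ) := by push_cast; linarith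
        have h5 : K < N + 7 := by exact_mod_cast h3
        have h6 : N ≤ K + 19 := by exact_mod_cast h4
        rw [Finset.mem_Icc]
        omega
      rw [tsum_eq_sum hz]
      calc ∑ K ∈ Finset.Icc (N - 19) (N + 6), (thick n K).indicator F z
          ≤ ∑ K ∈ Finset.Icc (N - 19) (N + 6), F z :=
            Finset.sum_le_sum fun K _ => indicator_le_self _ _ z
        _ = ((Finset.Icc (N - 19) (N + 6)).card : ℝ≥0∞) * F z := by
            rw [Finset.sum_const, nsmul_eq_mul]
        _ ≤ 26 * F z := by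
            gcongr
            have : (Finset.Icc (N - 19) (N + 6)).card ≤ 26 := by
              rw [Nat.card_Icc]; omega
            exact_mod_cast this
    refine ne_top_of_le_ne_top (b := ENNReal.ofReal C * (26 * ∫⁻ z, F z)) ?_ ?_
    · exact ENNReal.mul_ne_top ENNReal.ofReal_ne_top (ENNReal.mul_ne_top (by norm_num) hfin)
    · calc ∑' K : ℕ, ENNReal.ofReal ((1 + (K : ℝ)) ^ (-σ) * Real.exp (-β * K) *
            (1 + (K : ℝ)) ^ (-q)) * ∫⁻ z in thick n K, G z
          ≤ ∑' K : ℕ, ENNReal.ofReal C * ∫⁻ z, (thick n K).indicator F z := by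
            apply ENNReal.tsum_le_tsum
            intro K
            rw [← lintegral_const_mul _ hG, lintegral_indicator (measurableSet_thick n K),
              ← lintegral_const_mul _ hFm]
            exact setLIntegral_mono (measurable_const.mul hFm) (hw K)
        _ = ENNReal.ofReal C * ∫⁻ z, ∑' K : ℕ, (thick n K).indicator F z := by
            rw [ENNReal.tsum_mul_left, lintegral_tsum fun K =>
              (hFm.indicator (measurableSet_thick n K)).aemeasurable]
        _ ≤ ENNReal.ofReal C * ∫⁻ z, 26 * F z := by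
            gcongr with z
            exact hcount z
        _ = ENNReal.ofReal C * (26 * ∫⁻ z, F z) := by
            rw [lintegral_const_mul _ hFm]

end Pool.Agent.Run7.h610.FK
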