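import Pool.Agent.Run7.h350.FK.Iface

/-!
# Piece SUM of project FK (helper350)

By helper610.
-/

set_option autoImplicit false

namespace Pool.Agent.Run7.h610.FK

open MeasureTheory Set Topology Pool.Agent.Run7.h350.FK
open scoped ENNReal NNReal

/-- the weight -/
noncomputable def wt (β σ : ℝ) (K : ℕ) : ℝ := (1 + (K : ℝ)) ^ (-σ) * Real.exp (-β * K)

theorem wt_pos (β σ : ℝ) (K : ℕ) : 0 < wt β σ K := by
  unfold wt
  have : (0 : ℝ) < 1 + K := by positivity
  positivity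

theorem wt_succ {β σ : ℝ} (hσ : 0 ≤ σ) (K : ℕ) :
    wt β σ (K + 1) ≤ Real.exp (-β) * wt β σ K := by
  unfold wt
  have h1 : (1 + ((K + 1 : ℕ) : ℝ)) ^ (-σ) ≤ (1 + (K : ℝ)) ^ (-σ) := by
    apply Real.rpow_le_rpow_of_nonpos (by positivity) (by push_cast; linarith) (by linarith)
  have h2 : Real.exp (-β * ((K + 1 : ℕ) : ℝ)) = Real.exp (-β) * Real.exp (-β * K) := by
    rw [← Real.exp_add]
    congr 1
    push_cast
    ring
  rw [h2]
  have h3 := Real.exp_pos (-β)
  have h4 := Real.exp_pos (-β * K)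
  calc (1 + ((K + 1 : ℕ) : ℝ)) ^ (-σ) * (Real.exp (-β) * Real.exp (-β * K))
      ≤ (1 + (K : ℝ)) ^ (-σ) * (Real.exp (-β) * Real.exp (-β * K)) :=
        mul_le_mul_of_nonneg_right h1 (by positivity)
    _ = Real.exp (-β) * ((1 + (K : ℝ)) ^ (-σ) * Real.exp (-β * K)) := by ring

/-- An absorption argument. -/
theorem absorb {X D : ℝ≥0∞} {θ : ℝ} (hθ0 : 0 ≤ θ) (hθ : θ < 1) (hX : X ≠ ∞)
    (h : X ≤ ENNReal.ofReal θ * X + D) : X ≤ ENNReal.ofReal (1 - θ)⁻¹ * D := by
  by_cases hD : D = ∞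
  · rw [hD, ENNReal.mul_top]
    · exact le_top
    · rw [Ne, ENNReal.ofReal_eq_zero, not_le]
      exact inv_pos.2 (by linarith)
  · lift X to ℝ≥0 using hX
    lift D to ℝ≥0 using hD
    have h1 : (X : ℝ) ≤ θ * X + D := by
      have h2 := ENNReal.toReal_mono (by finiteness) h
      rw [ENNReal.toReal_add (by finiteness) (by finiteness), ENNReal.toReal_mul,
        ENNReal.toReal_ofReal hθ0] at h2
      simpa using h2
    have h3 : (X : ℝ) ≤ (1 - θ)⁻¹ * D := by
      rw [← div_eq_inv_mul, le_div_iff₀ (by linarith)]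
      linarith
    have h4 := ENNReal.ofReal_le_ofReal h3
    rw [ENNReal.ofReal_mul (inv_nonneg.2 (by linarith))] at h4
    simpa using h4

theorem pow_le_exp (n : ℕ) {K : ℕ} (hK : 2 ≤ K) :
    ((K : ℝ) / (K - 1)) ^ n ≤ Real.exp (n / (K - 1)) := by
  have hK' : (2 : ℝ) ≤ K := by exact_mod_cast hK
  have h1 : (K : ℝ) / (K - 1) ≤ Real.exp (1 / ((K : ℝ) - 1)) := by
    have h2 := Real.add_one_le_exp (1 / ((K : ℝ) - 1))
    have h3 : (K : ℝ) / (K - 1) = 1 / ((K : ℝ) - 1) + 1 := by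
      have : (K : ℝ) - 1 ≠ 0 := by linarith
      field_simp
      ring
    rw [h3]
    exact h2
  have h4 : (0 : ℝ) ≤ (K : ℝ) / (K - 1) := div_nonneg (by linarith) (by linarith)
  calc ((K : ℝ) / (K - 1)) ^ n ≤ (Real.exp (1 / ((K : ℝ) - 1))) ^ n := pow_le_pow_left₀ h4 h1 n
    _ = Real.exp (n / (K - 1)) := by
        rw [← Real.exp_nat_mul]
        congr 1
        ring

/-- **SUM.** -/
theorem t_SUM : S_SUM := by
  intro n q β σ hq hβ hσ a b ha hrec hb
  set ε : ℝ := Real.exp (β / 4) - 1 with hε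
  have hε0 : 0 < ε := by
    have := Real.add_one_lt_exp (show β / 4 ≠ 0 by linarith)
    rw [hε]; linarith
  obtain ⟨C, hC⟩ := hrec ε hε0
  -- the index
  obtain ⟨k, hk1, hk2⟩ : ∃ k : ℕ, 1 ≤ k ∧ (4 * n / β : ℝ) ≤ k := by
    obtain ⟨k, hk⟩ := exists_nat_ge (4 * n / β : ℝ)
    exact ⟨k + 1, by omega, by push_cast; linarith⟩
  set θ : ℝ := Real.exp (-(β / 2)) with hθ
  have hθ0 : 0 ≤ θ := (Real.exp_pos _).le
  have hθ1 : θ < 1 := by
    rw [hθ, Real.exp_lt_one_iff]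
    linarith
  -- the recursion with weights
  have hw : ∀ j : ℕ, ENNReal.ofReal (wt β σ (k + j + 1)) * a (k + j + 1) ≤
      ENNReal.ofReal θ * (ENNReal.ofReal (wt β σ (k + j)) * a (k + j)) +
      (C * ENNReal.ofReal ((2 : ℝ) ^ q)) * (ENNReal.ofReal (wt β σ (k + j + 1) *
        (1 + ((k + j + 1 : ℕ) : ℝ)) ^ (-q)) * b (k + j + 1)) := by
    intro j
    set K : ℕ := k + j + 1 with hKd
    have hK2 : 2 ≤ K := by omega
    have hK1 : K - 1 = k + j := by omega
    have hKr : (2 : ℝ) ≤ K := by exact_mod_cast hK2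
    have hkK : (k : ℝ) ≤ (K : ℝ) - 1 := by
      rw [hKd]; push_cast
      have : (0 : ℝ) ≤ j := Nat.cast_nonneg j
      linarith
    have h1 := hC K hK2
    rw [hK1] at h1
    have h2 : (1 + ε) * ((K : ℝ) / (K - 1)) ^ n * wt β σ K ≤ θ * wt β σ (k + j) := by
      have e1 : ((K : ℝ) / (K - 1)) ^ n ≤ Real.exp (β / 4) := by
        refine (pow_le_exp n hK2).trans (Real.exp_le_exp.2 ?_)
        rw [div_le_iff₀ (by linarith)]
        rw [div_le_iff₀ hβ] at hk2
        nlinarith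
      have e2 : 1 + ε = Real.exp (β / 4) := by rw [hε]; ring
      have e3 : wt β σ K ≤ Real.exp (-β) * wt β σ (k + j) := wt_succ hσ (k + j)
      have e4 : θ = Real.exp (β / 4) * Real.exp (β / 4) * Real.exp (-β) := by
        rw [hθ, ← Real.exp_add, ← Real.exp_add]
        congr 1
        ring
      rw [e2, e4]
      have p1 := Real.exp_pos (β / 4)
      have p2 := wt_pos β σ K
      calc Real.exp (β / 4) * ((K : ℝ) / (K - 1)) ^ n * wt β σ K
          ≤ Real.exp (β / 4) * Real.exp (β / 4) * wt β σ K := by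
            apply mul_le_mul_of_nonneg_right _ p2.le
            exact mul_le_mul_of_nonneg_left e1 p1.le
        _ ≤ Real.exp (β / 4) * Real.exp (β / 4) * (Real.exp (-β) * wt β σ (k + j)) := by
            apply mul_le_mul_of_nonneg_left e3
            positivity
        _ = _ := by ring
    have h3 : (K : ℝ) ^ (-q) ≤ (2 : ℝ) ^ q * (1 + (K : ℝ)) ^ (-q) := by
      have e1 : (1 + (K : ℝ)) ^ (-q) = (1 + (K : ℝ)) ^ (-q) := rfl
      have e2 : (2 : ℝ) ^ q = (2⁻¹ : ℝ) ^ (-q) := by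
        rw [Real.rpow_neg (by norm_num), Real.inv_rpow (by norm_num), inv_inv]
      rw [e2, ← Real.mul_rpow (by norm_num) (by linarith)]
      apply Real.rpow_le_rpow_of_nonpos (by linarith) (by linarith) (by linarith)
    have hwK := wt_pos β σ K
    calc ENNReal.ofReal (wt β σ K) * a K
        ≤ ENNReal.ofReal (wt β σ K) * (ENNReal.ofReal ((1 + ε) * ((K : ℝ) / (K - 1)) ^ n) *
            a (k + j) + C * ENNReal.ofReal ((K : ℝ) ^ (-q)) * b K) := by gcongr
      _ = ENNReal.ofReal ((1 + ε) * ((K : ℝ) / (K - 1)) ^ n * wt β σ K) * a (k + j) +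
            C * ENNReal.ofReal (wt β σ K * (K : ℝ) ^ (-q)) * b K := by
          rw [ENNReal.ofReal_mul' hwK.le, ENNReal.ofReal_mul hwK.le]
          ring
      _ ≤ ENNReal.ofReal (θ * wt β σ (k + j)) * a (k + j) +
            C * ENNReal.ofReal (wt β σ K * ((2 : ℝ) ^ q * (1 + (K : ℝ)) ^ (-q))) * b K := by
          gcongr
      _ = _ := by
          rw [ENNReal.ofReal_mul hθ0, show wt β σ K * ((2 : ℝ) ^ q * (1 + (K : ℝ)) ^ (-q)) =
            (2 : ℝ) ^ q * (wt β σ K * (1 + (K : ℝ)) ^ (-q)) by ring,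
            ENNReal.ofReal_mul (by positivity)]
          ring
  set T : ℝ≥0∞ := ∑' K : ℕ, ENNReal.ofReal ((1 + (K : ℝ)) ^ (-σ) * Real.exp (-β * K) *
    (1 + (K : ℝ)) ^ (-q)) * b K with hT
  set A : ℕ → ℝ≥0∞ := fun K => ENNReal.ofReal (wt β σ K) * a K with hA
  have hAf : ∀ K, A K ≠ ∞ := fun K => ENNReal.mul_ne_top ENNReal.ofReal_ne_top (ha K)
  set D : ℝ≥0∞ := ENNReal.ofReal θ * A k + (C * ENNReal.ofReal ((2 : ℝ) ^ q)) * T with hD
  have hDf : D ≠ ∞ := ENNReal.add_ne_top.2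
    ⟨ENNReal.mul_ne_top ENNReal.ofReal_ne_top (hAf k),
      ENNReal.mul_ne_top (ENNReal.mul_ne_top ENNReal.coe_ne_top ENNReal.ofReal_ne_top) hb⟩
  have hX : ∀ m : ℕ, ∑ j ∈ Finset.range m, A (k + j + 1) ≤ ENNReal.ofReal (1 - θ)⁻¹ * D := by
    intro m
    apply absorb hθ0 hθ1 (ENNReal.sum_ne_top.2 fun j _ => hAf _)
    have h1 : ∑ j ∈ Finset.range m, A (k + j) ≤ A k + ∑ j ∈ Finset.range m, A (k + j + 1) := by
      have h2 : ∑ j ∈ Finset.range (m + 1), A (k + j) =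
          ∑ j ∈ Finset.range m, A (k + j + 1) + A k := by
        rw [Finset.sum_range_succ']
        rfl
      rw [add_comm, ← h2, Finset.sum_range_succ]
      exact le_self_add
    have h3 : ∑ j ∈ Finset.range m, ENNReal.ofReal (wt β σ (k + j + 1) *
        (1 + ((k + j + 1 : ℕ) : ℝ)) ^ (-q)) * b (k + j + 1) ≤ T := by
      have h4 : Function.Injective fun j : ℕ => k + j + 1 := fun x y h => by
        simp only at h; omega
      refine le_trans ?_ (ENNReal.tsum_comp_le_tsum_of_injective h4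
        (fun K : ℕ => ENNReal.ofReal ((1 + (K : ℝ)) ^ (-σ) * Real.exp (-β * K) *
          (1 + (K : ℝ)) ^ (-q)) * b K))
      exact ENNReal.sum_le_tsum _
    calc ∑ j ∈ Finset.range m, A (k + j + 1) ≤ ∑ j ∈ Finset.range m,
          (ENNReal.ofReal θ * A (k + j) + (C * ENNReal.ofReal ((2 : ℝ) ^ q)) *
          (ENNReal.ofReal (wt β σ (k + j + 1) * (1 + ((k + j + 1 : ℕ) : ℝ)) ^ (-q)) *
            b (k + j + 1))) := Finset.sum_le_sum fun j _ => hw j
      _ = ENNReal.ofReal θ * ∑ j ∈ Finset.range m, A (k + j) +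
          (C * ENNReal.ofReal ((2 : ℝ) ^ q)) * ∑ j ∈ Finset.range m,
            ENNReal.ofReal (wt β σ (k + j + 1) * (1 + ((k + j + 1 : ℕ) : ℝ)) ^ (-q)) *
            b (k + j + 1) := by
          rw [Finset.sum_add_distrib, Finset.mul_sum, Finset.mul_sum]
      _ ≤ ENNReal.ofReal θ * (A k + ∑ j ∈ Finset.range m, A (k + j + 1)) +
          (C * ENNReal.ofReal ((2 : ℝ) ^ q)) * T := by gcongr
      _ = ENNReal.ofReal θ * ∑ j ∈ Finset.range m, A (k + j + 1) + D := by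
          rw [hD]; ring
  have htail : ∑' j : ℕ, A (j + (k + 1)) ≤ ENNReal.ofReal (1 - θ)⁻¹ * D := by
    apply ENNReal.tsum_le_of_sum_range_le
    intro m
    refine le_trans (le_of_eq ?_) (hX m)
    apply Finset.sum_congr rfl
    intro j _
    rw [show j + (k + 1) = k + j + 1 by ring]
  have hsplit : ∑ K ∈ Finset.range (k + 1), A K + ∑' j : ℕ, A (j + (k + 1)) = ∑' K : ℕ, A K :=
    Summable.sum_add_tsum_nat_add' ENNReal.summable
  have hgoal : ∑' K : ℕ, A K ≠ ∞ := by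
    rw [← hsplit]
    exact ENNReal.add_ne_top.2 ⟨ENNReal.sum_ne_top.2 fun j _ => hAf _,
      ne_top_of_le_ne_top (ENNReal.mul_ne_top ENNReal.ofReal_ne_top hDf) htail⟩
  exact hgoal

end Pool.Agent.Run7.h610.FK
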